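import Pool.Agent.H68.F9.Obj
import Pool.Graph.R_seed8.H122R2.N6.Count

/-! Families of three-element sets. -/

set_option autoImplicit false
open Finset
open scoped Classical

namespace Pool.Agent.H68.L

open Pool.Agent.H122R2.N6 (tri K43Free)
open Pool.Agent.H68.F7 (Free)

variable {V : Type} [Fintype V]

omit [Fintype V] in
theorem e3_tri (H : Finset (Finset V)) : F9.E3 (fun S => S ∈ H) = tri H := by
  funext a b c
  have h : (({0, 1, 2} : Finset (Fin 7)).image ![a, b, c, a, a, a, a] : Finset V) = {a, b, c} := by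
    rw [image_insert, image_insert, image_singleton]
    simp
  unfold F9.E3 Pool.Agent.N443.gv tri
  rw [h]
  by_cases hm : ({a, b, c} : Finset V) ∈ H
  · rw [if_pos hm]; exact (if_pos hm).symm
  · rw [if_neg hm]; exact (if_neg hm).symm

omit [Fintype V] in
theorem free_of {H : Finset (Finset V)} (hH : ∀ e ∈ H, e.card = 3) (hF : K43Free H) : Free 4 (fun S : Finset V => S ∈ H) := by
  refine ⟨hH, fun P hP => ?_⟩
  obtain ⟨s, hs, h3, hn⟩ := hF P hP
  exact ⟨s, mem_powersetCard.mpr ⟨hs, h3⟩, hn⟩

end Pool.Agent.H68.L
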