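import Pool.Graph.R_seed8.H122R2.N6.Maj2

/-! Majorisation of `x ^ p` on `[0,1]`, `3 ≤ p ≤ 4`. -/

set_option autoImplicit false

namespace Pool.Agent.H68.L

open Pool.Agent.H122R2.N6.Maj

/-- the general principle: `Φ = x ^ p - W` with zeros `0`, `1/3` (double), `2/3` (double) and `d` -/
theorem nodes6 (p : ℝ) (hp1 : 3 ≤ p) (hp2 : p ≤ 4) (w1 w2 w3 w4 w5 : ℝ)
    (W : ℝ → ℝ) (hW : ∀ y, W y = 0 + w1 * y + w2 * y ^ 2 + w3 * y ^ 3 + w4 * y ^ 4 + w5 * y ^ 5)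
    (W1 : ℝ → ℝ) (hW1 : ∀ y, W1 y = w1 + (2 * w2) * y + (3 * w3) * y ^ 2 + (4 * w4) * y ^ 3 + (5 * w5) * y ^ 4)
    (ha : (1 / 3 : ℝ) ^ p = W (1 / 3)) (ha' : p * (1 / 3 : ℝ) ^ (p - 1) = W1 (1 / 3))
    (hb : (2 / 3 : ℝ) ^ p = W (2 / 3)) (hb' : p * (2 / 3 : ℝ) ^ (p - 1) = W1 (2 / 3))
    (d : ℝ) (hd : 0 < d) (hda : d ≠ 1 / 3) (hdb : d ≠ 2 / 3) (he : d ^ p = W d) : w5 ≤ 0 := by
  have hD : ∀ x, HasDerivAt W (W1 x) x := by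
    intro x
    have h := hq 0 w1 w2 w3 w4 w5 x
    have e : W = fun y : ℝ => 0 + w1 * y + w2 * y ^ 2 + w3 * y ^ 3 + w4 * y ^ 4 + w5 * y ^ 5 := by
      funext y; exact hW y
    rw [e, hW1]
    convert h using 1
    ring
  have hp0 : 0 < p := by linarith
  have h0 : (0 : ℝ) ^ p = W 0 := by rw [Real.zero_rpow hp0.ne', hW]; ring
  have hD1 : ∀ x, HasDerivAt W1 ((2 * w2) + (2 * (3 * w3)) * x + (3 * (4 * w4)) * x ^ 2
      + (4 * (5 * w5)) * x ^ 3 + (5 * 0) * x ^ 4 + 0 * x ^ 5) x := by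
    intro x
    have h := hq w1 (2 * w2) (3 * w3) (4 * w4) (5 * w5) 0 x
    have e : W1 = fun y : ℝ => w1 + (2 * w2) * y + (3 * w3) * y ^ 2 + (4 * w4) * y ^ 3
        + (5 * w5) * y ^ 4 + 0 * y ^ 5 := by
      funext y; rw [hW1]; ring
    rw [e]
    exact h
  have fin : ∀ {x1 x2 x3 x4 x5 : ℝ}, 0 < x1 → x1 < x2 → x2 < x3 → x3 < x4 → x4 < x5 →
      p * x1 ^ (p - 1) = W1 x1 → p * x2 ^ (p - 1) = W1 x2 → p * x3 ^ (p - 1) = W1 x3 →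
      p * x4 ^ (p - 1) = W1 x4 → p * x5 ^ (p - 1) = W1 x5 → w5 ≤ 0 := by
    intro x1 x2 x3 x4 x5 hx h12 h23 h34 h45 e1 e2 e3 e4 e5
    obtain ⟨z, hz, h⟩ := z5 p W1 _ _ _ _ hD1 (hq _ _ _ _ _ _) (hq _ _ _ _ _ _) (hq _ _ _ _ _ _)
      hx h12 h23 h34 h45 e1 e2 e3 e4 e5
    have hpos : 0 < z ^ (p - 1 - 1 - 1 - 1 - 1) := Real.rpow_pos_of_pos hz _
    have hneg : p * (p - 1) * (p - 1 - 1) * (p - 1 - 1 - 1) * (p - 1 - 1 - 1 - 1) ≤ 0 := by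
      have a1 : 0 ≤ p * (p - 1) := by nlinarith
      have a2 : 0 ≤ p * (p - 1) * (p - 1 - 1) := mul_nonneg a1 (by linarith)
      have a3 : 0 ≤ p * (p - 1) * (p - 1 - 1) * (p - 1 - 1 - 1) := mul_nonneg a2 (by linarith)
      exact mul_nonpos_of_nonneg_of_nonpos a3 (by linarith)
    have h2 := mul_nonpos_of_nonpos_of_nonneg hneg hpos.le
    rw [h] at h2
    nlinarith
  rcases lt_or_gt_of_ne hda with h | h
  · obtain ⟨z1, a1, b1, c1⟩ := ro0 p hp0 W W1 hD le_rfl hd h0 he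
    obtain ⟨z2, a2, b2, c2⟩ := ro0 p hp0 W W1 hD hd.le h he ha
    obtain ⟨z3, a3, b3, c3⟩ := ro0 p hp0 W W1 hD (by norm_num) (by norm_num) ha hb
    exact fin a1 (b1.trans a2) b2 a3 b3 c1 c2 ha' c3 hb'
  · obtain ⟨z1, a1, b1, c1⟩ := ro0 p hp0 W W1 hD le_rfl (by norm_num) h0 ha
    rcases lt_or_gt_of_ne hdb with h' | h'
    · obtain ⟨z2, a2, b2, c2⟩ := ro0 p hp0 W W1 hD (by norm_num) h ha he
      obtain ⟨z3, a3, b3, c3⟩ := ro0 p hp0 W W1 hD hd.le h' he hb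
      exact fin a1 b1 a2 (b2.trans a3) b3 c1 ha' c2 c3 hb'
    · obtain ⟨z2, a2, b2, c2⟩ := ro0 p hp0 W W1 hD (by norm_num) (by norm_num) ha hb
      obtain ⟨z3, a3, b3, c3⟩ := ro0 p hp0 W W1 hD (by norm_num) h' hb he
      exact fin a1 b1 a2 b2 a3 c1 ha' c2 hb' c3

theorem maj6 (p κ : ℝ) (hp1 : 3 ≤ p) (hp2 : p ≤ 4)
    (h0 : 0 ≤ (2 - (2 : ℝ) ^ p) + 2 / 9 * U p (2 ^ p) + 4 / 81 * κ) (d : ℝ) (hd : 0 ≤ d) :
    d ^ p ≤ (1 / 3 : ℝ) ^ p * MM p (2 ^ p) κ d := by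
  have e1 := third p
  have e2 := third' p
  have e3 := third'' p
  have hθ : 0 < (1 / 3 : ℝ) ^ p := Real.rpow_pos_of_pos (by norm_num) _
  set q : ℝ := (2 : ℝ) ^ p with hq
  set θ : ℝ := (1 / 3 : ℝ) ^ p with hθd
  have hp0 : 0 < p := by linarith
  rcases hd.eq_or_lt with h | hd'
  · rw [← h, Real.zero_rpow hp0.ne']
    refine mul_nonneg hθ.le ?_
    unfold MM
    nlinarith
  by_cases ha : d = 1 / 3
  · rw [ha, ← hθd]
    unfold MM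
    ring_nf
    exact le_rfl
  by_cases hb : d = 2 / 3
  · rw [hb, e1]
    unfold MM
    ring_nf
    exact le_rfl
  set κ0 : ℝ := -(81 / 4 * ((2 - q) + 2 / 9 * U p q)) with hκ0
  have hκ : κ0 ≤ κ := by rw [hκ0]; linarith
  have hden : 0 < d * ((d - 1 / 3) * (d - 2 / 3)) ^ 2 := by
    refine mul_pos hd' (pow_pos_of_ne ?_)
    exact mul_ne_zero (sub_ne_zero.mpr ha) (sub_ne_zero.mpr hb)
  set c : ℝ := (d ^ p - θ * MM p q κ0 d) / (d * ((d - 1 / 3) * (d - 2 / 3)) ^ 2) with hc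
  have hcd : d ^ p = θ * MM p q κ0 d + c * (d * ((d - 1 / 3) * (d - 2 / 3)) ^ 2) := by
    rw [hc, div_mul_cancel₀ _ hden.ne']
    ring
  have hc0 : c ≤ 0 := by
    refine nodes6 p hp1 hp2
      (θ * (3 * (q - 1) + 2 / 9 * Vv p q - U p q - 4 / 9 * κ0) + 4 / 81 * c)
      (θ * (U p q - Vv p q + 13 / 9 * κ0) - 4 / 9 * c)
      (θ * (Vv p q - 2 * κ0) + 13 / 9 * c)
      (θ * κ0 - 2 * c) c
      (fun y => θ * MM p q κ0 y + c * (y * ((y - 1 / 3) * (y - 2 / 3)) ^ 2)) ?_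
      (fun y => (θ * (3 * (q - 1) + 2 / 9 * Vv p q - U p q - 4 / 9 * κ0) + 4 / 81 * c)
        + (2 * (θ * (U p q - Vv p q + 13 / 9 * κ0) - 4 / 9 * c)) * y
        + (3 * (θ * (Vv p q - 2 * κ0) + 13 / 9 * c)) * y ^ 2
        + (4 * (θ * κ0 - 2 * c)) * y ^ 3 + (5 * c) * y ^ 4) (fun y => rfl) ?_ ?_ ?_ ?_
      d hd' ha hb hcd
    · intro y
      show θ * MM p q κ0 y + c * (y * ((y - 1 / 3) * (y - 2 / 3)) ^ 2) = _
      unfold MM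
      rw [hκ0]
      ring
    · show θ = θ * MM p q κ0 (1 / 3) + c * (1 / 3 * ((1 / 3 - 1 / 3) * (1 / 3 - 2 / 3)) ^ 2)
      unfold MM
      ring
    · rw [e2]
      unfold U Vv
      ring
    · rw [e1]
      show θ * q = θ * MM p q κ0 (2 / 3) + c * (2 / 3 * ((2 / 3 - 1 / 3) * (2 / 3 - 2 / 3)) ^ 2)
      unfold MM
      ring
    · rw [e3]
      unfold U Vv
      ring
  have h1 : d ^ p ≤ θ * MM p q κ0 d := by
    rw [hcd]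
    have := mul_nonpos_of_nonpos_of_nonneg hc0 hden.le
    linarith
  refine h1.trans (mul_le_mul_of_nonneg_left ?_ hθ.le)
  unfold MM
  have : 0 ≤ (κ - κ0) * ((d - 1 / 3) * (d - 2 / 3)) ^ 2 := mul_nonneg (by linarith) (sq_nonneg _)
  linarith

end Pool.Agent.H68.L
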