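import Pool.Agent.H68.L.Wts

/-! The inequalities for the weights, `29/10 ≤ p ≤ 17/5`. -/

set_option autoImplicit false

namespace Pool.Agent.H68.L

open Pool.Agent.H122R2.N6.Maj

theorem r29 : (7.4642639 : ℝ) ≤ (2 : ℝ) ^ (29 / 10 : ℝ) ∧ (2 : ℝ) ^ (29 / 10 : ℝ) ≤ 7.464264 := by
  have h8 : ((2 : ℝ) ^ (29 / 10 : ℝ)) ^ 10 = 536870912 := by
    rw [← Real.rpow_natCast, ← Real.rpow_mul (by norm_num)]
    norm_num
  have hpos : 0 < (2 : ℝ) ^ (29 / 10 : ℝ) := Real.rpow_pos_of_pos (by norm_num) _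
  constructor
  · by_contra h
    push Not at h
    have := pow_lt_pow_left₀ h hpos.le (n := 10) (by norm_num)
    rw [h8] at this
    norm_num at this
  · by_contra h
    push Not at h
    have := pow_lt_pow_left₀ h (by norm_num) (n := 10) (by norm_num)
    rw [h8] at this
    norm_num at this

theorem e_lo5 {t : ℝ} (h0 : 0 ≤ t) :
    1 + 0.693147 * t + (0.693147 * t) ^ 2 / 2 + (0.693147 * t) ^ 3 / 6 + (0.693147 * t) ^ 4 / 24 ≤ (2 : ℝ) ^ t := by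
  have hL := Real.log_two_gt_d9
  have h1 : 0.693147 * t ≤ Real.log 2 * t := mul_le_mul_of_nonneg_right (by linarith) h0
  have hx : 0 ≤ 0.693147 * t := by positivity
  have he := Real.sum_le_exp_of_nonneg hx 5
  simp only [Finset.sum_range_succ, Finset.sum_range_zero, Nat.factorial] at he
  have h2 : Real.exp (0.693147 * t) ≤ (2 : ℝ) ^ t := by
    rw [two_rpow]; exact Real.exp_le_exp.mpr h1
  refine le_trans (le_of_eq ?_) (he.trans h2)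
  push_cast
  ring

theorem q_lo29 {t : ℝ} (h0 : 0 ≤ t) :
    7.4642639 * (1 + 0.693147 * t + (0.693147 * t) ^ 2 / 2 + (0.693147 * t) ^ 3 / 6 + (0.693147 * t) ^ 4 / 24)
      ≤ (2 : ℝ) ^ (29 / 10 + t) := by
  rw [Real.rpow_add (by norm_num)]
  exact mul_le_mul r29.1 (e_lo5 h0) (by positivity) (by positivity)

theorem q_up29 {t : ℝ} (h0 : 0 ≤ t) (h1 : t ≤ 1) :
    (2 : ℝ) ^ (29 / 10 + t) ≤ 7.464264 * (1 + 0.6931472 * t + (0.6931472 * t) ^ 2 / 2 + (0.6931472 * t) ^ 3 / 6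
      + (0.6931472 * t) ^ 4 * (5 / 96)) := by
  rw [Real.rpow_add (by norm_num)]
  exact mul_le_mul r29.2 (e_up h0 h1) (by positivity) (by norm_num)

theorem K0 {p : ℝ} (h1 : 29 / 10 ≤ p) (h2 : p ≤ 17 / 5) :
    0 ≤ (2 - (2 : ℝ) ^ p) + 2 / 9 * U p (2 ^ p) + 4 / 81 * (9 / 8 * ((2 : ℝ) ^ p - 1) - 39 / 515 * Gg p (2 ^ p)) := by
  have ht : 0 ≤ p - 29 / 10 := by linarith
  have hs : 0 ≤ 1 / 2 - (p - 29 / 10) := by linarith
  have hq := q_lo29 ht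
  rw [show 29 / 10 + (p - 29 / 10) = p by ring] at hq
  set q := (2 : ℝ) ^ p
  have hα : 0 ≤ 91 / 18 - p + 52 / 13905 * (3 * p - 4) := by linarith
  have hm := mul_le_mul_of_nonneg_right hq hα
  unfold U Gg
  obtain ⟨t, rfl⟩ : ∃ t, p = 29 / 10 + t := ⟨p - 29 / 10, by ring⟩
  rw [show 29 / 10 + t - 29 / 10 = t by ring] at *
  nlinarith [mul_nonneg (pow_nonneg ht 5) (pow_nonneg hs 0), mul_nonneg (pow_nonneg ht 4) (pow_nonneg hs 1),
    mul_nonneg (pow_nonneg ht 3) (pow_nonneg hs 2), mul_nonneg (pow_nonneg ht 2) (pow_nonneg hs 3),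
    mul_nonneg (pow_nonneg ht 1) (pow_nonneg hs 4), mul_nonneg (pow_nonneg ht 0) (pow_nonneg hs 5)]

theorem K2 {p : ℝ} (h1 : 29 / 10 ≤ p) (h2 : p ≤ 17 / 5) :
    0 ≤ U p ((2 : ℝ) ^ p) + 369 / 515 * Gg p (2 ^ p) := by
  have ht : 0 ≤ p - 29 / 10 := by linarith
  have hs : 0 ≤ 1 / 2 - (p - 29 / 10) := by linarith
  have hq := q_lo29 ht
  rw [show 29 / 10 + (p - 29 / 10) = p by ring] at hq
  set q := (2 : ℝ) ^ p
  have hα : 0 ≤ 27 - 9 / 2 * p + 369 / 515 * (4 - 3 * p) := by linarith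
  have hm := mul_le_mul_of_nonneg_right hq hα
  unfold U Gg
  obtain ⟨t, rfl⟩ : ∃ t, p = 29 / 10 + t := ⟨p - 29 / 10, by ring⟩
  rw [show 29 / 10 + t - 29 / 10 = t by ring] at *
  nlinarith [mul_nonneg (pow_nonneg ht 5) (pow_nonneg hs 0), mul_nonneg (pow_nonneg ht 4) (pow_nonneg hs 1),
    mul_nonneg (pow_nonneg ht 3) (pow_nonneg hs 2), mul_nonneg (pow_nonneg ht 2) (pow_nonneg hs 3),
    mul_nonneg (pow_nonneg ht 1) (pow_nonneg hs 4), mul_nonneg (pow_nonneg ht 0) (pow_nonneg hs 5)]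

theorem K3 {p : ℝ} (h1 : 29 / 10 ≤ p) (h2 : p ≤ 17 / 5) :
    0 ≤ U p ((2 : ℝ) ^ p) + Vv p (2 ^ p) + 2007 / 1030 * Gg p (2 ^ p) := by
  have ht : 0 ≤ p - 29 / 10 := by linarith
  have ht' : p - 29 / 10 ≤ 1 := by linarith
  have hs : 0 ≤ 1 / 2 - (p - 29 / 10) := by linarith
  have hq := q_up29 ht ht'
  rw [show 29 / 10 + (p - 29 / 10) = p by ring] at hq
  set q := (2 : ℝ) ^ p
  have hα : 0 ≤ -(-27 + 9 * p + 2007 / 1030 * (4 - 3 * p)) := by linarith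
  have hm := mul_le_mul_of_nonneg_right hq hα
  unfold U Vv Gg
  obtain ⟨t, rfl⟩ : ∃ t, p = 29 / 10 + t := ⟨p - 29 / 10, by ring⟩
  rw [show 29 / 10 + t - 29 / 10 = t by ring] at *
  nlinarith [mul_nonneg (pow_nonneg ht 5) (pow_nonneg hs 0), mul_nonneg (pow_nonneg ht 4) (pow_nonneg hs 1),
    mul_nonneg (pow_nonneg ht 3) (pow_nonneg hs 2), mul_nonneg (pow_nonneg ht 2) (pow_nonneg hs 3),
    mul_nonneg (pow_nonneg ht 1) (pow_nonneg hs 4), mul_nonneg (pow_nonneg ht 0) (pow_nonneg hs 5)]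

end Pool.Agent.H68.L
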