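import Pool.Graph.R_seed8.H122R2.N6.Wts

/-! The inequalities for the weights, `6/5 ≤ p ≤ 3/2`. -/

set_option autoImplicit false

namespace Pool.Agent.H68.L

open Pool.Agent.H122R2.N6.Maj

theorem r65 : (2.2973967 : ℝ) ≤ (2 : ℝ) ^ (6 / 5 : ℝ) ∧ (2 : ℝ) ^ (6 / 5 : ℝ) ≤ 2.2973968 := by
  have h8 : ((2 : ℝ) ^ (6 / 5 : ℝ)) ^ 5 = 64 := by
    rw [← Real.rpow_natCast, ← Real.rpow_mul (by norm_num)]
    norm_num
  have hpos : 0 < (2 : ℝ) ^ (6 / 5 : ℝ) := Real.rpow_pos_of_pos (by norm_num) _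
  constructor
  · by_contra h
    push Not at h
    have := pow_lt_pow_left₀ h hpos.le (n := 5) (by norm_num)
    rw [h8] at this
    norm_num at this
  · by_contra h
    push Not at h
    have := pow_lt_pow_left₀ h (by norm_num) (n := 5) (by norm_num)
    rw [h8] at this
    norm_num at this

theorem e_lo {t : ℝ} (h0 : 0 ≤ t) :
    1 + 0.693147 * t + (0.693147 * t) ^ 2 / 2 + (0.693147 * t) ^ 3 / 6 ≤ (2 : ℝ) ^ t := by
  have hL := Real.log_two_gt_d9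
  have h1 : 0.693147 * t ≤ Real.log 2 * t := mul_le_mul_of_nonneg_right (by linarith) h0
  have hx : 0 ≤ 0.693147 * t := by positivity
  have he := Real.sum_le_exp_of_nonneg hx 4
  simp only [Finset.sum_range_succ, Finset.sum_range_zero, Nat.factorial] at he
  have h2 : Real.exp (0.693147 * t) ≤ (2 : ℝ) ^ t := by
    rw [two_rpow]; exact Real.exp_le_exp.mpr h1
  refine le_trans (le_of_eq ?_) (he.trans h2)
  push_cast
  ring

theorem e_up {t : ℝ} (h0 : 0 ≤ t) (h1 : t ≤ 1) :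
    (2 : ℝ) ^ t ≤ 1 + 0.6931472 * t + (0.6931472 * t) ^ 2 / 2 + (0.6931472 * t) ^ 3 / 6
      + (0.6931472 * t) ^ 4 * (5 / 96) := by
  have hL' := Real.log_two_lt_d9
  have h2 : Real.log 2 * t ≤ 0.6931472 * t := mul_le_mul_of_nonneg_right (by linarith) h0
  have hx : 0 ≤ 0.6931472 * t := by positivity
  have he := Real.exp_bound' hx (by linarith) (n := 4) (by norm_num)
  simp only [Finset.sum_range_succ, Finset.sum_range_zero, Nat.factorial] at he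
  have h3 : (2 : ℝ) ^ t ≤ Real.exp (0.6931472 * t) := by
    rw [two_rpow]; exact Real.exp_le_exp.mpr h2
  refine (h3.trans he).trans (le_of_eq ?_)
  push_cast
  ring

theorem q_lo65 {t : ℝ} (h0 : 0 ≤ t) :
    2.2973967 * (1 + 0.693147 * t + (0.693147 * t) ^ 2 / 2 + (0.693147 * t) ^ 3 / 6) ≤ (2 : ℝ) ^ (6 / 5 + t) := by
  rw [Real.rpow_add (by norm_num)]
  exact mul_le_mul r65.1 (e_lo h0) (by positivity) (by positivity)

theorem q_up65 {t : ℝ} (h0 : 0 ≤ t) (h1 : t ≤ 1) :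
    (2 : ℝ) ^ (6 / 5 + t) ≤ 2.2973968 * (1 + 0.6931472 * t + (0.6931472 * t) ^ 2 / 2 + (0.6931472 * t) ^ 3 / 6
      + (0.6931472 * t) ^ 4 * (5 / 96)) := by
  rw [Real.rpow_add (by norm_num)]
  exact mul_le_mul r65.2 (e_up h0 h1) (by positivity) (by norm_num)

theorem I0 {p : ℝ} (h1 : 6 / 5 ≤ p) (h2 : p ≤ 3 / 2) :
    0 ≤ (2 - (2 : ℝ) ^ p) + 2 / 9 * U p (2 ^ p) + 4 / 81 * (9 / 8 * ((2 : ℝ) ^ p - 1) + 33 / 640 * Gg p (2 ^ p)) := by
  have ht : 0 ≤ p - 6 / 5 := by linarith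
  have hs : 0 ≤ 3 / 10 - (p - 6 / 5) := by linarith
  have hq := q_lo65 ht
  rw [show 6 / 5 + (p - 6 / 5) = p by ring] at hq
  set q := (2 : ℝ) ^ p
  have hα : 0 ≤ 91 / 18 - p + 11 / 4320 * (4 - 3 * p) := by linarith
  have hm := mul_le_mul_of_nonneg_right hq hα
  unfold U Gg
  obtain ⟨t, rfl⟩ : ∃ t, p = 6 / 5 + t := ⟨p - 6 / 5, by ring⟩
  rw [show 6 / 5 + t - 6 / 5 = t by ring] at *
  rcases le_total t (3 / 20) with h | h
  · have hr : 0 ≤ 3 / 20 - t := by linarith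
    nlinarith [mul_nonneg (pow_nonneg ht 4) (pow_nonneg hr 0), mul_nonneg (pow_nonneg ht 3) (pow_nonneg hr 1),
      mul_nonneg (pow_nonneg ht 2) (pow_nonneg hr 2), mul_nonneg (pow_nonneg ht 1) (pow_nonneg hr 3),
      mul_nonneg (pow_nonneg ht 0) (pow_nonneg hr 4)]
  · have hr : 0 ≤ t - 3 / 20 := by linarith
    nlinarith [mul_nonneg (pow_nonneg hr 4) (pow_nonneg hs 0), mul_nonneg (pow_nonneg hr 3) (pow_nonneg hs 1),
      mul_nonneg (pow_nonneg hr 2) (pow_nonneg hs 2), mul_nonneg (pow_nonneg hr 1) (pow_nonneg hs 3),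
      mul_nonneg (pow_nonneg hr 0) (pow_nonneg hs 4)]

theorem I1 {p : ℝ} (h1 : 6 / 5 ≤ p) (h2 : p ≤ 3 / 2) : 0 ≤ Gg p ((2 : ℝ) ^ p) := by
  have ht : 0 ≤ p - 6 / 5 := by linarith
  have hs : p - 6 / 5 ≤ 1 := by linarith
  have hr : 0 ≤ 3 / 10 - (p - 6 / 5) := by linarith
  have hq := q_lo65 ht
  have hq' := q_up65 ht hs
  rw [show 6 / 5 + (p - 6 / 5) = p by ring] at hq hq'
  set q := (2 : ℝ) ^ p
  obtain ⟨t, rfl⟩ : ∃ t, p = 6 / 5 + t := ⟨p - 6 / 5, by ring⟩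
  rw [show 6 / 5 + t - 6 / 5 = t by ring] at *
  have hq1 : q ≤ 3 := by nlinarith [mul_nonneg ht ht, mul_nonneg ht hr, mul_nonneg (pow_nonneg ht 2) hr, mul_nonneg (pow_nonneg ht 3) hr]
  unfold Gg
  nlinarith

theorem I2 {p : ℝ} (h1 : 6 / 5 ≤ p) (h2 : p ≤ 3 / 2) : 0 ≤ U p ((2 : ℝ) ^ p) - 39 / 160 * Gg p (2 ^ p) := by
  have ht : 0 ≤ p - 6 / 5 := by linarith
  have hs : 0 ≤ 3 / 10 - (p - 6 / 5) := by linarith
  have hq := q_lo65 ht
  rw [show 6 / 5 + (p - 6 / 5) = p by ring] at hq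
  set q := (2 : ℝ) ^ p
  have hα : 0 ≤ 27 - 9 / 2 * p - 39 / 160 * (4 - 3 * p) := by linarith
  have hm := mul_le_mul_of_nonneg_right hq hα
  unfold U Gg
  obtain ⟨t, rfl⟩ : ∃ t, p = 6 / 5 + t := ⟨p - 6 / 5, by ring⟩
  rw [show 6 / 5 + t - 6 / 5 = t by ring] at *
  nlinarith [mul_nonneg (pow_nonneg ht 4) (pow_nonneg hs 0), mul_nonneg (pow_nonneg ht 3) (pow_nonneg hs 1),
    mul_nonneg (pow_nonneg ht 2) (pow_nonneg hs 2), mul_nonneg (pow_nonneg ht 1) (pow_nonneg hs 3),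
    mul_nonneg (pow_nonneg ht 0) (pow_nonneg hs 4)]

theorem I3 {p : ℝ} (h1 : 6 / 5 ≤ p) (h2 : p ≤ 3 / 2) : 0 ≤ U p ((2 : ℝ) ^ p) + Vv p (2 ^ p) - 21 / 160 * Gg p (2 ^ p) := by
  have ht : 0 ≤ p - 6 / 5 := by linarith
  have ht' : p - 6 / 5 ≤ 1 := by linarith
  have hs : 0 ≤ 3 / 10 - (p - 6 / 5) := by linarith
  have hq := q_up65 ht ht'
  rw [show 6 / 5 + (p - 6 / 5) = p by ring] at hq
  set q := (2 : ℝ) ^ p
  have hα : 0 ≤ -(-27 + 9 * p - 21 / 160 * (4 - 3 * p)) := by linarith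
  have hm := mul_le_mul_of_nonneg_right hq hα
  unfold U Vv Gg
  obtain ⟨t, rfl⟩ : ∃ t, p = 6 / 5 + t := ⟨p - 6 / 5, by ring⟩
  rw [show 6 / 5 + t - 6 / 5 = t by ring] at *
  nlinarith [mul_nonneg (pow_nonneg ht 5) (pow_nonneg hs 0), mul_nonneg (pow_nonneg ht 4) (pow_nonneg hs 1),
    mul_nonneg (pow_nonneg ht 3) (pow_nonneg hs 2), mul_nonneg (pow_nonneg ht 2) (pow_nonneg hs 3),
    mul_nonneg (pow_nonneg ht 1) (pow_nonneg hs 4), mul_nonneg (pow_nonneg ht 0) (pow_nonneg hs 5)]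

end Pool.Agent.H68.L
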