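import Pool.Agent.H68.L.P1
import Pool.Agent.H68.L.Wts

/-! The `p`-th powers of the codegrees of a `K_4^3`-free 3-graph, `6/5 ≤ p ≤ 3/2`. -/

set_option autoImplicit false
open Finset
open scoped Classical

namespace Pool.Agent.H68.L

open Pool.Agent.H122R2.N6 Pool.Agent.H122R2.N6.Maj

theorem lp_lo {V : Type} [Fintype V] {H : Finset (Finset V)} (hH : ∀ e ∈ H, e.card = 3) (hF : K43Free H)
    (hn : 0 < Fintype.card V) (p : ℝ) (h1 : 6 / 5 ≤ p) (h2 : p ≤ 3 / 2) :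
    ∑ a, ∑ b, dn (tri H) a b ^ p ≤ (1 / 3 : ℝ) ^ p * ((1 + 2 * (2 : ℝ) ^ p) / 3) * (Fintype.card V : ℝ) ^ 2 := by
  refine comb3 hn p (9 / 8 * ((2 : ℝ) ^ p - 1) + 33 / 640 * Gg p (2 ^ p)) _ _ _
    (15 / 16 * Gg p (2 ^ p)) ((U p (2 ^ p) - 39 / 160 * Gg p (2 ^ p)) / 2)
    ((U p (2 ^ p) + Vv p (2 ^ p) - 21 / 160 * Gg p (2 ^ p)) / 2)
    (mul_nonneg (by norm_num) (L.I1 h1 h2)) (div_nonneg (L.I2 h1 h2) (by norm_num))
    (div_nonneg (L.I3 h1 h2) (by norm_num)) ?_ (P1.avg hH hF hn) (PA.avg (tri_sy H) (tri_noK4 hH hF) hn)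
    (PB.avg (tri_sy H) (tri_noK4 hH hF) hn)
    ?_ (fun d hd => maj5 p _ (by linarith) (by linarith) (L.I0 h1 h2) d hd)
  · unfold U Vv Gg
    ring
  · intro a b
    unfold MM ph U Vv Gg
    ring

end Pool.Agent.H68.L
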