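import Pool.Agent.H68.L.Lo
import Pool.Agent.H68.L.Hi

/-! The `p`-th powers of the codegrees of a `K_4^3`-free 3-graph, `6/5 ≤ p ≤ 17/5`. -/

set_option autoImplicit false
open Finset
open scoped Classical

namespace Pool.Agent.H68.L

open Pool.Agent.H122R2.N6

theorem lp_all {V : Type} [Fintype V] {H : Finset (Finset V)} (hH : ∀ e ∈ H, e.card = 3) (hF : K43Free H)
    (hn : 0 < Fintype.card V) (p : ℝ) (h1 : 6 / 5 ≤ p) (h2 : p ≤ 17 / 5) :
    ∑ a, ∑ b, dn (tri H) a b ^ p ≤ (1 / 3 : ℝ) ^ p * ((1 + 2 * (2 : ℝ) ^ p) / 3) * (Fintype.card V : ℝ) ^ 2 := by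
  rcases le_total p (3 / 2) with h | h
  · exact lp_lo hH hF hn p h1 h
  rcases le_total p (29 / 10) with h' | h'
  · exact lp_main (tri_sy H) (tri_noK4 hH hF) hn p h h'
  · exact lp_hi hH hF hn p h' h2

/-- the bound in terms of the codegrees of the pairs -/
theorem lp_pairs {V : Type} [Fintype V] {H : Finset (Finset V)} (hH : ∀ e ∈ H, e.card = 3) (hF : K43Free H) (p : ℝ)
    (h1 : 6 / 5 ≤ p) (h2 : p ≤ 17 / 5) :
    ∑ P ∈ (univ : Finset V).powersetCard 2, (deg2 H P : ℝ) ^ p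
      ≤ (1 + 2 ^ (p + 1)) / (2 * 3 ^ (p + 1)) * (Fintype.card V : ℝ) ^ (p + 2) := by
  rcases Nat.eq_zero_or_pos (Fintype.card V) with h0 | hn
  · haveI := Fintype.card_eq_zero_iff.mp h0
    have : (univ : Finset V).powersetCard 2 = ∅ := by
      rw [powersetCard_eq_empty, card_univ, h0]
      norm_num
    rw [this, sum_empty]
    positivity
  have hp0 : 0 < p := by linarith
  have hn' : (0 : ℝ) < (Fintype.card V : ℝ) := by exact_mod_cast hn
  have hm := lp_all hH hF hn p h1 h2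
  have hd := deg2_fsum_le hH (fun k : ℕ => (k : ℝ) ^ p) (fun k => by positivity)
    (fun a b hab => Real.rpow_le_rpow (by positivity) (by exact_mod_cast hab) hp0.le)
  have e1 : ∑ a, ∑ b, ((∑ c, tri H a b c : ℕ) : ℝ) ^ p
      = (Fintype.card V : ℝ) ^ p * ∑ a, ∑ b, dn (tri H) a b ^ p := by
    rw [mul_sum]
    refine sum_congr rfl fun a _ => ?_
    rw [mul_sum]
    refine sum_congr rfl fun b _ => ?_
    rw [← Real.mul_rpow hn'.le (dn_nonneg _ a b)]
    unfold dn
    congr 1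
    push_cast
    field_simp
  rw [e1] at hd
  have e2 : (1 + (2 : ℝ) ^ (p + 1)) / (2 * 3 ^ (p + 1)) * (Fintype.card V : ℝ) ^ (p + 2)
      = 1 / 2 * ((Fintype.card V : ℝ) ^ p * ((1 / 3 : ℝ) ^ p * ((1 + 2 * (2 : ℝ) ^ p) / 3)
        * (Fintype.card V : ℝ) ^ 2)) := by
    rw [Real.rpow_add_one (by norm_num), Real.rpow_add_one (by norm_num),
      Real.rpow_add hn', Real.rpow_two, Real.div_rpow (by norm_num) (by norm_num), Real.one_rpow]
    have h3 : (0 : ℝ) < 3 ^ p := Real.rpow_pos_of_pos (by norm_num) _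
    field_simp
  rw [e2]
  have h5 := mul_le_mul_of_nonneg_left hm (Real.rpow_nonneg hn'.le p)
  linarith

end Pool.Agent.H68.L
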