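import Pool.Agent.H68.L3.Main
import Pool.Agent.H68.L.Tri

/-! An average of a polynomial of the codegrees. -/

set_option autoImplicit false
open Finset
open scoped Classical

namespace Pool.Agent.H68.L.P3

open Pool.Agent.H122R2.N6

theorem avg {V : Type} [Fintype V] {H : Finset (Finset V)} (hH : ∀ e ∈ H, e.card = 3) (hF : K43Free H)
    (hn : 0 < Fintype.card V) :
    ∑ a, ∑ b, ph (123 / 100) (423 / 200) (101 / 200) (dn (tri H) a b) ≤ 5 / 9 * (Fintype.card V : ℝ) ^ 2 := by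
  have hb := Pool.Agent.H68.L3.main (free_of hH hF) hn
  rw [e3_tri] at hb
  obtain ⟨q0, q1, q2, q3, q4⟩ := Pool.Agent.H68.L3.QQ_val
  refine avg_of (tri H) (tri_sy H) (fun k => 14 * (Pool.Agent.H68.L3.QQ k : ℤ)) (757657600) (9878400) (-65856000) (701719200) (1282780800) 63504000000
    ?_ ?_ ?_ ?_ ?_ hb (123 / 100) (423 / 200) (101 / 200) 114307200000 (by norm_num) ?_ (by norm_num) hn
  · show 14 * ((Pool.Agent.H68.L3.QQ 0 : ℕ) : ℤ) = _
    rw [q0]; norm_num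
  · show 14 * ((Pool.Agent.H68.L3.QQ 1 : ℕ) : ℤ) = _
    rw [q1]; norm_num
  · show 14 * ((Pool.Agent.H68.L3.QQ 2 : ℕ) : ℤ) = _
    rw [q2]; norm_num
  · show 14 * ((Pool.Agent.H68.L3.QQ 3 : ℕ) : ℤ) = _
    rw [q3]; norm_num
  · show 14 * ((Pool.Agent.H68.L3.QQ 4 : ℕ) : ℤ) = _
    rw [q4]; norm_num
  · intro d
    unfold ph
    push_cast
    ring

end Pool.Agent.H68.L.P3
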